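import Mathlib
import Pool.Agent.H905R3.GapMain

set_option autoImplicit false

namespace Pool.Agent.Results.MP_dcd72d_ag.NoUniformGap

open Pool.Agent.H905R3

/-- **No uniform gap for the cohomological Lyapunov exponent `μ_2` in dimension `2`.**
For every field `K` and every real `μ > 1` there is a dominant rational self-map `f` of `ℙ²` over
`K` with dynamical degrees `l 0 = 1`, `l 1`, `l 2` such that `μ_2(f) = l 2 / l 1` lies in
`(μ⁻¹, 1)`. -/
theorem result (K : Type*) [Field K] (μ : ℝ) (hμ : 1 < μ) :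
    ∃ f : RatMap K 2, f.Dominant ∧ ∃ l : Fin 3 → ℝ, (∀ i, f.IsDynamicalDegree i (l i)) ∧
      l 0 = 1 ∧ μ⁻¹ < l 2 / l 1 ∧ l 2 / l 1 < 1 := by
  obtain ⟨c, hc⟩ := Gap.bet_near μ hμ
  refine ⟨Gap.f K c, Gap.dominant K c, ![1, Gap.alp c, c + 2], Gap.dyn K c, rfl, ?_, ?_⟩
  · change μ⁻¹ < (c + 2 : ℝ) / Gap.alp c
    rw [Gap.quot]
    exact hc
  · change (c + 2 : ℝ) / Gap.alp c < 1
    rw [Gap.quot]
    exact Gap.bet_lt_one c

end Pool.Agent.Results.MP_dcd72d_ag.NoUniformGap
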